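import Mathlib
import Pool.Agent.Helper680.RigidConfig
import Pool.Agent.Y370.RigidC.Rep

/-!
# MP_532797_co: every 3-configuration has continuum many projective classes of realizations

Stronger form of the starting result `NotRigid` (no 3-configuration is rigid): for every realizable
combinatorial `(n_3)` configuration there is a family of geometric realizations, indexed by the real
numbers, no two of which are projectively equivalent, even if one is allowed to permute the points
and lines by automorphisms of the configuration.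
-/

set_option autoImplicit false

namespace Pool.Agent.Results.MP_532797_co.ContinuumOfClasses

/-- A combinatorial (n_3) configuration: n points and n lines (both indexed by Fin n), incidence relation I,
every point on exactly three lines, every line containing exactly three points,
two distinct points on at most one common line. -/
structure IsConfiguration (n : ℕ) (I : Fin n → Fin n → Prop) : Prop where
  lines_through : ∀ p, {l | I p l}.ncard = 3
  points_on : ∀ l, {p | I p l}.ncard = 3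
  linear : ∀ p q l m, p ≠ q → I p l → I q l → I p m → I q m → l = m

/-- A geometric realization in the real projective plane: points of the plane are the one-dimensional
subspaces of the real vector space of dimension three, lines are the two-dimensional subspaces,
a point lies on a line when it is contained in it. Distinct points go to distinct points,
distinct lines to distinct lines, and incidence holds exactly when prescribed. -/
structure Realization {n : ℕ} (I : Fin n → Fin n → Prop) where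
  point : Fin n → Submodule ℝ (Fin 3 → ℝ)
  line : Fin n → Submodule ℝ (Fin 3 → ℝ)
  point_dim : ∀ p, Module.finrank ℝ (point p) = 1
  line_dim : ∀ l, Module.finrank ℝ (line l) = 2
  point_inj : Function.Injective point
  line_inj : Function.Injective line
  incidence : ∀ p l, point p ≤ line l ↔ I p l

/-- Projective equivalence: a projective transformation (induced by an invertible linear map)
carries every point and every line of R to the corresponding one of S. -/
def ProjEquiv {n : ℕ} {I : Fin n → Fin n → Prop} (R S : Realization I) : Prop :=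
  ∃ g : (Fin 3 → ℝ) ≃ₗ[ℝ] (Fin 3 → ℝ),
    (∀ p, (R.point p).map (g : (Fin 3 → ℝ) →ₗ[ℝ] (Fin 3 → ℝ)) = S.point p) ∧
    (∀ l, (R.line l).map (g : (Fin 3 → ℝ) →ₗ[ℝ] (Fin 3 → ℝ)) = S.line l)

/-- A 3-configuration: a combinatorial (n_3) configuration with at least one geometric realization. -/
def Is3Configuration (n : ℕ) (I : Fin n → Fin n → Prop) : Prop :=
  IsConfiguration n I ∧ Nonempty (Realization I)

/-- Rigid: all geometric realizations lie in a single projective equivalence class. -/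
def IsRigid {n : ℕ} (I : Fin n → Fin n → Prop) : Prop :=
  ∀ R S : Realization I, ProjEquiv R S

/-- Equivalence of unlabelled configurations: an automorphism of the incidence structure (a
permutation of the points and a permutation of the lines that preserve incidence) followed by a
projective transformation carries R to S. -/
def WeakEquiv {n : ℕ} {I : Fin n → Fin n → Prop} (R S : Realization I) : Prop :=
  ∃ (σ τ : Equiv.Perm (Fin n)) (g : (Fin 3 → ℝ) ≃ₗ[ℝ] (Fin 3 → ℝ)),
    (∀ p l, I p l ↔ I (σ p) (τ l)) ∧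
    (∀ p, (R.point p).map (g : (Fin 3 → ℝ) →ₗ[ℝ] (Fin 3 → ℝ)) = S.point (σ p)) ∧
    (∀ l, (R.line l).map (g : (Fin 3 → ℝ) →ₗ[ℝ] (Fin 3 → ℝ)) = S.line (τ l))

open Matrix Pool.Agent.Helper680.RigidConfig.Th

/-- the Levi graph -/
def levi {n : ℕ} {I : Fin n → Fin n → Prop} (hI : IsConfiguration n I) : Cfg (Fin n ⊕ Fin n) where
  adj := fun x y => match x, y with
    | Sum.inl p, Sum.inr l => I p l
    | Sum.inr l, Sum.inl p => I p l
    | _, _ => False
  col := fun x => match x with
    | Sum.inl _ => true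
    | Sum.inr _ => false
  symm := by
    rintro (p | l) (q | m) h <;> exact h
  bip := by
    rintro (p | l) (q | m) h <;> simp_all
  three := by
    rintro (p | l)
    · obtain ⟨a, b, c, hab, hac, hbc, h⟩ := Set.ncard_eq_three.mp (hI.lines_through p)
      refine ⟨Sum.inr a, Sum.inr b, Sum.inr c, by simpa using hab, by simpa using hac, by simpa using hbc, ?_, ?_, ?_, ?_⟩
      · show a ∈ {l | I p l}
        rw [h]; simp
      · show b ∈ {l | I p l}
        rw [h]; simp
      · show c ∈ {l | I p l}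
        rw [h]; simp
      · rintro (q | m) hw
        · exact hw.elim
        · have : m ∈ {l | I p l} := hw
          rw [h] at this
          simpa using this
    · obtain ⟨a, b, c, hab, hac, hbc, h⟩ := Set.ncard_eq_three.mp (hI.points_on l)
      refine ⟨Sum.inl a, Sum.inl b, Sum.inl c, by simpa using hab, by simpa using hac, by simpa using hbc, ?_, ?_, ?_, ?_⟩
      · show a ∈ {p | I p l}
        rw [h]; simp
      · show b ∈ {p | I p l}
        rw [h]; simp
      · show c ∈ {p | I p l}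
        rw [h]; simp
      · rintro (q | m) hw
        · have : q ∈ {p | I p l} := hw
          rw [h] at this
          simpa using this
        · exact hw.elim
  lin := by
    rintro (p | l) (q | m) (r | k) (s | j) hxy hzw h1 h2 h3 h4
    all_goals first | exact h1.elim | exact h2.elim | exact h3.elim | exact h4.elim | skip
    · exact hzw (congrArg Sum.inr (hI.linear p q k j (fun h => hxy (congrArg Sum.inl h)) h1 h3 h2 h4))
    · exact hxy (congrArg Sum.inr (hI.linear r s l m (fun h => hzw (congrArg Sum.inl h)) h1 h2 h3 h4))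

theorem sep {V : Type} (G : Cfg V) {x y : V} (hxy : x ≠ y) : ∃ z, G.adj x z ∧ ¬ G.adj y z := by
  obtain ⟨y1, y2, y3, h12, h13, h23, a1, a2, a3, _⟩ := G.three x
  by_cases h : G.adj y y1
  · exact ⟨y2, a2, fun h2 => G.lin hxy h12 a1 a2 h h2⟩
  · exact ⟨y1, a1, h⟩

/-- a two-dimensional subspace has a normal vector -/
theorem exists_normal (L : Submodule ℝ (Fin 3 → ℝ)) (hL : Module.finrank ℝ L = 2) :
    ∃ ν : Fin 3 → ℝ, ν ≠ 0 ∧ ∀ x, x ∈ L ↔ x ⬝ᵥ ν = 0 := by
  have b := Module.finBasisOfFinrankEq ℝ L hL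
  set x : Fin 3 → ℝ := (b 0 : Fin 3 → ℝ) with hx
  set y : Fin 3 → ℝ := (b 1 : Fin 3 → ℝ) with hy
  have hind : ∀ s t : ℝ, s • x + t • y = 0 → s = 0 ∧ t = 0 := by
    intro s t h
    have h1 : s • b 0 + t • b 1 = 0 := by
      apply Subtype.ext
      simpa [hx, hy] using h
    have h2 := Fintype.linearIndependent_iff.mp b.linearIndependent ![s, t] (by simpa [Fin.sum_univ_two] using h1)
    exact ⟨by simpa using h2 0, by simpa using h2 1⟩
  have hy0 : y ≠ 0 := by
    intro h
    have := (hind 0 1 (by rw [h]; simp)).2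
    exact one_ne_zero this
  have hxy : x ⨯₃ y ≠ 0 := by
    intro h
    obtain ⟨c, hc⟩ := prop_of_cross hy0 h
    have := (hind 1 (-c) (by rw [hc]; simp)).1
    exact one_ne_zero this
  refine ⟨x ⨯₃ y, hxy, ?_⟩
  intro z
  constructor
  · intro hz
    have h1 : z = (b.repr ⟨z, hz⟩ 0) • x + (b.repr ⟨z, hz⟩ 1) • y := by
      have := b.sum_repr ⟨z, hz⟩
      rw [Fin.sum_univ_two] at this
      have h2 := congrArg Subtype.val this
      simpa [hx, hy] using h2.symm
    rw [h1, add_dotProduct, smul_dotProduct, smul_dotProduct, triple_self, triple_self']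
    simp
  · intro hz
    obtain ⟨s, t, hst⟩ := span2 hxy (triple_self x y) (triple_self' x y) hz hxy
    rw [hst]
    exact L.add_mem (L.smul_mem _ (b 0).2) (L.smul_mem _ (b 1).2)

theorem exists_vec (P : Submodule ℝ (Fin 3 → ℝ)) (hP : Module.finrank ℝ P = 1) :
    ∃ v : Fin 3 → ℝ, v ≠ 0 ∧ P = Submodule.span ℝ {v} := by
  obtain ⟨v, hv, h⟩ := finrank_eq_one_iff'.mp hP
  refine ⟨v, fun h0 => hv (Subtype.ext h0), ?_⟩
  ext x
  rw [Submodule.mem_span_singleton]
  constructor
  · intro hx
    obtain ⟨c, hc⟩ := h ⟨x, hx⟩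
    exact ⟨c, congrArg Subtype.val hc⟩
  · rintro ⟨c, rfl⟩
    exact P.smul_mem _ v.2

/-- vectors representing a realization -/
theorem rep_of_real {n : ℕ} {I : Fin n → Fin n → Prop} (hI : IsConfiguration n I) (R : Realization I) :
    ∃ E : Fin n ⊕ Fin n → Fin 3 → ℝ, IsRep (levi hI) E ∧
      (∀ p, R.point p = Submodule.span ℝ {E (Sum.inl p)}) ∧
      (∀ l x, x ∈ R.line l ↔ x ⬝ᵥ E (Sum.inr l) = 0) := by
  choose v hv hPv using fun p => exists_vec (R.point p) (R.point_dim p)
  choose ν hν hLν using fun l => exists_normal (R.line l) (R.line_dim l)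
  have key : ∀ p l, v p ⬝ᵥ ν l = 0 ↔ I p l := by
    intro p l
    rw [← hLν l, ← R.incidence p l, hPv p, Submodule.span_singleton_le_iff_mem]
  refine ⟨Sum.elim v ν, ⟨?_, ?_⟩, ?_, ?_⟩
  · rintro (p | l)
    · exact hv p
    · exact hν l
  · rintro (p | l) (q | m) hcol
    · exact absurd rfl hcol
    · exact key p m
    · show ν l ⬝ᵥ v q = 0 ↔ I q l
      rw [dotProduct_comm]
      exact key q l
    · exact absurd rfl hcol
  · intro p; exact hPv p
  · intro l x; exact hLν l x

/-- the plane orthogonal to a vector -/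
def perp (ν : Fin 3 → ℝ) : Submodule ℝ (Fin 3 → ℝ) where
  carrier := {x | x ⬝ᵥ ν = 0}
  add_mem' := by
    intro a b ha hb
    simp only [Set.mem_ofPred_eq] at *
    rw [add_dotProduct, ha, hb, add_zero]
  zero_mem' := by simp
  smul_mem' := by
    intro c a ha
    simp only [Set.mem_ofPred_eq] at *
    rw [smul_dotProduct, ha, smul_zero]

theorem mem_perp {ν x : Fin 3 → ℝ} : x ∈ perp ν ↔ x ⬝ᵥ ν = 0 := Iff.rfl

theorem perp_dim {ν : Fin 3 → ℝ} (hν : ν ≠ 0) : Module.finrank ℝ (perp ν) = 2 := by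
  set φ : (Fin 3 → ℝ) →ₗ[ℝ] ℝ :=
    { toFun := fun x => x ⬝ᵥ ν
      map_add' := by intro a b; exact add_dotProduct a b ν
      map_smul' := by intro c a; exact smul_dotProduct c a ν } with hφ
  have hker : perp ν = LinearMap.ker φ := by
    ext x
    rw [mem_perp, LinearMap.mem_ker]
    rfl
  have h1 := LinearMap.finrank_range_add_finrank_ker φ
  have h2 : LinearMap.range φ = ⊤ := by
    rw [LinearMap.range_eq_top]
    intro r
    have hνν : ν ⬝ᵥ ν ≠ 0 := by rw [dot3]; exact sq_ne_zero3 hν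
    refine ⟨(r / (ν ⬝ᵥ ν)) • ν, ?_⟩
    show ((r / (ν ⬝ᵥ ν)) • ν) ⬝ᵥ ν = r
    rw [smul_dotProduct, smul_eq_mul, div_mul_cancel₀ _ hνν]
  rw [h2, finrank_top] at h1
  rw [hker]
  have h3 : Module.finrank ℝ ℝ = 1 := Module.finrank_self ℝ
  have h4 : Module.finrank ℝ (Fin 3 → ℝ) = 3 := by simp
  omega

/-- a realization from vectors -/
def real_of_rep {n : ℕ} {I : Fin n → Fin n → Prop} (hI : IsConfiguration n I) (E : Fin n ⊕ Fin n → Fin 3 → ℝ)
    (hE : IsRep (levi hI) E) : Realization I where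
  point := fun p => Submodule.span ℝ {E (Sum.inl p)}
  line := fun l => perp (E (Sum.inr l))
  point_dim := fun p => finrank_span_singleton (hE.1 _)
  line_dim := fun l => perp_dim (hE.1 _)
  point_inj := by
    intro p q h
    by_contra hne
    obtain ⟨z, hz1, hz2⟩ := sep (levi hI) (x := Sum.inl p) (y := Sum.inl q) (fun h => hne (Sum.inl.inj h))
    rcases z with r | l
    · exact hz1.elim
    · apply hz2
      rw [← hE.2 (Sum.inl q) (Sum.inr l) (by simp [levi])]
      have h1 : E (Sum.inl p) ⬝ᵥ E (Sum.inr l) = 0 := hE.dot hz1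
      have h2 : E (Sum.inl q) ∈ Submodule.span ℝ {E (Sum.inl p)} := by
        simp only at h
        rw [h]; exact Submodule.mem_span_singleton_self _
      obtain ⟨c, hc⟩ := Submodule.mem_span_singleton.mp h2
      rw [← hc, smul_dotProduct, h1, smul_zero]
  line_inj := by
    intro l m h
    by_contra hne
    obtain ⟨z, hz1, hz2⟩ := sep (levi hI) (x := Sum.inr l) (y := Sum.inr m) (fun h => hne (Sum.inr.inj h))
    rcases z with p | r
    · apply hz2
      rw [← hE.2 (Sum.inr m) (Sum.inl p) (by simp [levi])]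
      have h1 : E (Sum.inl p) ∈ perp (E (Sum.inr l)) := by
        rw [mem_perp, dotProduct_comm]
        exact hE.dot hz1
      simp only at h
      rw [h, mem_perp, dotProduct_comm] at h1
      exact h1
    · exact hz1.elim
  incidence := by
    intro p l
    rw [Submodule.span_singleton_le_iff_mem, mem_perp]
    exact hE.2 (Sum.inl p) (Sum.inr l) (by simp [levi])

theorem eqv_of_projEquiv {n : ℕ} {I : Fin n → Fin n → Prop} (hI : IsConfiguration n I)
    {E E' : Fin n ⊕ Fin n → Fin 3 → ℝ} (hE : IsRep (levi hI) E) (hE' : IsRep (levi hI) E')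
    (h : ProjEquiv (real_of_rep hI E hE) (real_of_rep hI E' hE')) : Eqv (levi hI) E E' := by
  obtain ⟨g, hgp, hgl⟩ := h
  have hmul : ∀ x, LinearMap.toMatrix' (g : (Fin 3 → ℝ) →ₗ[ℝ] (Fin 3 → ℝ)) *ᵥ x = g x := by
    intro x
    rw [← Matrix.toLin'_apply, Matrix.toLin'_toMatrix']
    rfl
  have hdet : (LinearMap.toMatrix' (g : (Fin 3 → ℝ) →ₗ[ℝ] (Fin 3 → ℝ))).det ≠ 0 := by
    rw [LinearMap.det_toMatrix']
    exact (LinearEquiv.isUnit_det' g).ne_zero
  refine ⟨LinearMap.toMatrix' (g : (Fin 3 → ℝ) →ₗ[ℝ] (Fin 3 → ℝ)), hdet, ?_, ?_⟩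
  · rintro (p | l) hc
    · have h1 := hgp p
      have h2 : E' (Sum.inl p) ∈ ((real_of_rep hI E hE).point p).map
          (g : (Fin 3 → ℝ) →ₗ[ℝ] (Fin 3 → ℝ)) := by
        rw [h1]
        exact Submodule.mem_span_singleton_self _
      have hpt : (real_of_rep hI E hE).point p = Submodule.span ℝ {E (Sum.inl p)} := rfl
      rw [hpt, Submodule.map_span, Set.image_singleton, Submodule.mem_span_singleton] at h2
      obtain ⟨c, hc'⟩ := h2
      refine ⟨c, ?_, ?_⟩
      · rintro rfl
        apply hE'.1 (Sum.inl p)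
        rw [← hc', zero_smul]
      · rw [hmul, ← hc']
        rfl
    · exact absurd hc (by simp [levi])
  · rintro (p | l) hc
    · exact absurd hc (by simp [levi])
    · set A := LinearMap.toMatrix' (g : (Fin 3 → ℝ) →ₗ[ℝ] (Fin 3 → ℝ)) with hA
      have h1 : ∀ x, x ⬝ᵥ E (Sum.inr l) = 0 → x ⬝ᵥ (Aᵀ *ᵥ E' (Sum.inr l)) = 0 := by
        intro x hx
        have h2 : g x ∈ ((real_of_rep hI E hE).line l).map
            (g : (Fin 3 → ℝ) →ₗ[ℝ] (Fin 3 → ℝ)) := ⟨x, hx, rfl⟩
        rw [hgl l] at h2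
        have h3 : (g x) ⬝ᵥ E' (Sum.inr l) = 0 := h2
        rw [← hmul] at h3
        rw [Matrix.dotProduct_mulVec, Matrix.vecMul_transpose]
        exact h3
      have h4 : (Aᵀ *ᵥ E' (Sum.inr l)) ⨯₃ E (Sum.inr l) = 0 := by
        set w := Aᵀ *ᵥ E' (Sum.inr l) with hw
        set ν := E (Sum.inr l) with hν
        have k : ∀ e : Fin 3 → ℝ, e ⬝ᵥ (w ⨯₃ ν) = 0 := by
          intro e
          have h5 := h1 (ν ⨯₃ e) (by rw [dotProduct_comm]; exact triple_self _ _)
          rw [← h5]
          simp only [dot3, cross3]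
          simp
          ring
        funext i
        have := k (Pi.single i 1)
        simpa [dotProduct, Pi.single_apply] using this
      obtain ⟨c, hc'⟩ := prop_of_cross (hE.1 (Sum.inr l)) h4
      refine ⟨c, ?_, hc'⟩
      rintro rfl
      rw [zero_smul] at hc'
      apply hE'.1 (Sum.inr l)
      have hdetT : (Aᵀ).det ≠ 0 := by rw [Matrix.det_transpose]; exact hdet
      exact Matrix.eq_zero_of_mulVec_eq_zero hdetT hc'

section weak

variable {n : ℕ} {I : Fin n → Fin n → Prop}

theorem map_map' (g h : (Fin 3 → ℝ) ≃ₗ[ℝ] (Fin 3 → ℝ)) (P : Submodule ℝ (Fin 3 → ℝ)) :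
    P.map ((g.trans h : (Fin 3 → ℝ) ≃ₗ[ℝ] (Fin 3 → ℝ)) : (Fin 3 → ℝ) →ₗ[ℝ] (Fin 3 → ℝ)) =
      (P.map (g : (Fin 3 → ℝ) →ₗ[ℝ] (Fin 3 → ℝ))).map (h : (Fin 3 → ℝ) →ₗ[ℝ] (Fin 3 → ℝ)) := by
  rw [← Submodule.map_comp]
  rfl

theorem map_symm' (g : (Fin 3 → ℝ) ≃ₗ[ℝ] (Fin 3 → ℝ)) (P : Submodule ℝ (Fin 3 → ℝ)) :
    (P.map (g : (Fin 3 → ℝ) →ₗ[ℝ] (Fin 3 → ℝ))).map
      (g.symm : (Fin 3 → ℝ) →ₗ[ℝ] (Fin 3 → ℝ)) = P := by
  rw [← Submodule.map_comp]
  have : (g.symm : (Fin 3 → ℝ) →ₗ[ℝ] (Fin 3 → ℝ)) ∘ₗ (g : (Fin 3 → ℝ) →ₗ[ℝ] (Fin 3 → ℝ)) =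
      LinearMap.id := by
    ext x; simp
  rw [this, Submodule.map_id]

theorem WeakEquiv.refl (R : Realization I) : WeakEquiv R R :=
  ⟨1, 1, LinearEquiv.refl ℝ _, fun _ _ => Iff.rfl, fun p => by
    show (R.point p).map LinearMap.id = _
    rw [Submodule.map_id]; rfl, fun l => by
    show (R.line l).map LinearMap.id = _
    rw [Submodule.map_id]; rfl⟩

theorem WeakEquiv.symm {R S : Realization I} (h : WeakEquiv R S) : WeakEquiv S R := by
  obtain ⟨σ, τ, g, h1, h2, h3⟩ := h
  refine ⟨σ⁻¹, τ⁻¹, g.symm, fun p l => ?_, fun p => ?_, fun l => ?_⟩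
  · have := h1 (σ⁻¹ p) (τ⁻¹ l)
    simpa using this.symm
  · have := h2 (σ⁻¹ p)
    rw [show σ (σ⁻¹ p) = p from σ.apply_symm_apply p] at this
    rw [← this, map_symm']
  · have := h3 (τ⁻¹ l)
    rw [show τ (τ⁻¹ l) = l from τ.apply_symm_apply l] at this
    rw [← this, map_symm']

theorem WeakEquiv.trans {R S T : Realization I} (h : WeakEquiv R S) (h' : WeakEquiv S T) :
    WeakEquiv R T := by
  obtain ⟨σ, τ, g, h1, h2, h3⟩ := h
  obtain ⟨σ', τ', g', h1', h2', h3'⟩ := h'
  refine ⟨σ' * σ, τ' * τ, g.trans g', fun p l => ?_, fun p => ?_, fun l => ?_⟩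
  · rw [h1, h1']; rfl
  · rw [map_map', h2, h2']; rfl
  · rw [map_map', h3, h3']; rfl

/-- two realizations that are both equivalent to `R` with the same relabelling are projectively
equivalent -/
theorem projEquiv_of_same {R S T : Realization I} {σ τ : Equiv.Perm (Fin n)}
    {g g' : (Fin 3 → ℝ) ≃ₗ[ℝ] (Fin 3 → ℝ)}
    (h2 : ∀ p, (R.point p).map (g : (Fin 3 → ℝ) →ₗ[ℝ] (Fin 3 → ℝ)) = S.point (σ p))
    (h3 : ∀ l, (R.line l).map (g : (Fin 3 → ℝ) →ₗ[ℝ] (Fin 3 → ℝ)) = S.line (τ l))
    (h2' : ∀ p, (R.point p).map (g' : (Fin 3 → ℝ) →ₗ[ℝ] (Fin 3 → ℝ)) = T.point (σ p))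
    (h3' : ∀ l, (R.line l).map (g' : (Fin 3 → ℝ) →ₗ[ℝ] (Fin 3 → ℝ)) = T.line (τ l)) :
    ProjEquiv S T := by
  refine ⟨g.symm.trans g', fun p => ?_, fun l => ?_⟩
  · obtain ⟨q, rfl⟩ := σ.surjective p
    rw [map_map', ← h2, map_symm', h2']
  · obtain ⟨q, rfl⟩ := τ.surjective l
    rw [map_map', ← h3, map_symm', h3']

/-- from labelled to unlabelled classes -/
theorem weak_family (R : ℝ → Realization I) (hR : ∀ s t, s ≠ t → ¬ ProjEquiv (R s) (R t)) :
    ∃ R' : ℝ → Realization I, ∀ s t, s ≠ t → ¬ WeakEquiv (R' s) (R' t) := by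
  classical
  let st : Setoid ℝ :=
    { r := fun s t => WeakEquiv (R s) (R t)
      iseqv := ⟨fun s => WeakEquiv.refl _, fun h => h.symm, fun h h' => h.trans h'⟩ }
  have hrep : ∀ s : ℝ, WeakEquiv (R (Quotient.out (Quotient.mk st s))) (R s) := fun s =>
    Quotient.exact (s := st) (Quotient.out_eq (Quotient.mk st s))
  choose σ τ g h1 h2 h3 using hrep
  have hinj : Function.Injective (fun s : ℝ => (Quotient.mk st s, (σ s, τ s))) := by
    intro s t hst
    simp only [Prod.mk.injEq] at hst
    obtain ⟨e1, e2, e3⟩ := hst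
    by_contra hne
    apply hR s t hne
    have k2 := h2 t
    have k3 := h3 t
    rw [← e1, ← e2] at k2
    rw [← e1, ← e3] at k3
    exact projEquiv_of_same (h2 s) (h3 s) k2 k3
  have hcard : Cardinal.mk ℝ ≤ Cardinal.mk (Quotient st) := by
    by_contra hlt
    push Not at hlt
    have k1 : Cardinal.mk ℝ ≤ Cardinal.mk (Quotient st × (Equiv.Perm (Fin n) × Equiv.Perm (Fin n))) :=
      Cardinal.mk_le_of_injective hinj
    rw [Cardinal.mk_prod, Cardinal.lift_id, Cardinal.lift_id] at k1
    have hc : Cardinal.aleph0 ≤ Cardinal.mk ℝ := by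
      rw [Cardinal.mk_real]; exact Cardinal.aleph0_le_continuum
    have k2 : Cardinal.mk (Equiv.Perm (Fin n) × Equiv.Perm (Fin n)) < Cardinal.mk ℝ :=
      (Cardinal.mk_lt_aleph0_iff.2 inferInstance).trans_le hc
    exact absurd (Cardinal.mul_lt_of_lt hc hlt k2) (not_lt.2 k1)
  obtain ⟨e⟩ : Nonempty (ℝ ↪ Quotient st) := hcard
  refine ⟨fun t => R (Quotient.out (e t)), fun s t hst h => hst ?_⟩
  apply e.injective
  have : Quotient.mk st (Quotient.out (e s)) = Quotient.mk st (Quotient.out (e t)) :=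
    Quotient.sound (s := st) h
  rwa [Quotient.out_eq, Quotient.out_eq] at this

end weak

/-- No 3-configuration is rigid; more precisely, every realizable combinatorial `(n_3)`
configuration has a family of geometric realizations, indexed by the real numbers, no two of which
are projectively equivalent, even after relabelling one of them by an automorphism of the
configuration. -/
theorem result : ∀ n : ℕ, 0 < n → ∀ I : Fin n → Fin n → Prop, Is3Configuration n I →
    ¬ IsRigid I ∧
    ∃ R : ℝ → Realization I, ∀ s t : ℝ, s ≠ t → ¬ ProjEquiv (R s) (R t) ∧ ¬ WeakEquiv (R s) (R t) := by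
  rintro n hn I ⟨hI, ⟨R⟩⟩
  obtain ⟨E, hE, -, -⟩ := rep_of_real hI R
  obtain ⟨F, hF, hFd⟩ := Pool.Agent.Y370.RigidC.main_repM hE (Sum.inl ⟨0, hn⟩) rfl
  obtain ⟨R', hR'⟩ := weak_family (fun t => real_of_rep hI (F t) (hF t))
    (fun s t hst h => hFd s t hst (eqv_of_projEquiv hI (hF s) (hF t) h))
  have hpw : ∀ S T : Realization I, ProjEquiv S T → WeakEquiv S T := by
    rintro S T ⟨g, h1, h2⟩
    exact ⟨1, 1, g, fun _ _ => Iff.rfl, h1, h2⟩
  refine ⟨fun hrig => hR' 0 1 (by norm_num) (hpw _ _ (hrig _ _)), R', fun s t hst =>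
    ⟨fun h => hR' s t hst (hpw _ _ h), hR' s t hst⟩⟩

end Pool.Agent.Results.MP_532797_co.ContinuumOfClasses
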